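import Pool.Agent.R736.BK.Lower
import Pool.Agent.R736.BK.Graph

set_option autoImplicit false

/-!
# The gap between the greedy and the optimal bucket number is unbounded
-/

namespace Pool.Agent.Results.MP_196ef9_co.GreedyGapUnbounded

open Pool.Agent.R736.BK

/-- **Theorem.** For every real `C` there is a finite graph `G` with `g-bucket(G) - bucket(G) > C`. -/
theorem result (C : ℝ) : ∃ (V : Type) (_ : Fintype V) (_ : DecidableEq V) (G : SimpleGraph V),
    C < gbucket G - bucket G := by
  classical
  obtain ⟨c, hc, hl⟩ := l_unbounded (2 * (C + 9))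
  obtain ⟨N, hN, H, h1, h2, h3⟩ := exists_graph c hc (2 * (c + 1))
  refine ⟨Option (Fin c × Fin N), inferInstance, inferInstance, apex H, ?_⟩
  have hgood : Good (apex H) 9 := by
    refine good_nine (apex H) (k := c + 1) (Nat.succ_pos c)
      (fun v => match v with
        | none => Fin.last c
        | some p => p.1.castSucc) ?_ ?_
    · intro u v huv
      rcases u with _ | u <;> rcases v with _ | v
      · exact absurd huv id
      · exact (Fin.castSucc_lt_last _).ne'
      · exact (Fin.castSucc_lt_last _).ne
      · intro h
        have h4 : u.1 = v.1 := Fin.castSucc_injective c h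
        obtain ⟨i, a⟩ := u
        obtain ⟨j, b⟩ := v
        simp only at h4
        subst h4
        exact h1 i a b huv
    · intro S hS
      obtain ⟨χ, hχ⟩ := h3 S.eraseNone (by
        refine le_trans ?_ hS
        have : (S.eraseNone.map Function.Embedding.some).card ≤ S.card := by
          refine Finset.card_le_card ?_
          intro v hv
          rw [Finset.mem_map] at hv
          obtain ⟨p, hp, rfl⟩ := hv
          exact Finset.mem_eraseNone.1 hp
        rwa [Finset.card_map] at this)
      refine ⟨fun v => match v with
        | none => Fin.last 3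
        | some p => (χ p).castSucc, ?_⟩
      intro u hu v hv huv
      rcases u with _ | u <;> rcases v with _ | v
      · exact absurd huv id
      · exact (Fin.castSucc_lt_last _).ne'
      · exact (Fin.castSucc_lt_last _).ne
      · intro h
        exact hχ u (Finset.mem_eraseNone.2 hu) v (Finset.mem_eraseNone.2 hv) huv
          (Fin.castSucc_injective 3 h)
  have hb : sInf {b : ℝ | 0 < b ∧ Good (apex H) b} ≤ 9 :=
    csInf_le ⟨0, fun b hb => hb.1.le⟩ ⟨by norm_num, hgood⟩
  have hg : l c c / 2 ≤ sInf {b : ℝ | 0 < b ∧ GGood (apex H) b} := by
    refine le_csInf ⟨_, ?_, ggood_card (apex H)⟩ fun b hb => lower H hN h1 h2 hb.2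
    exact_mod_cast Fintype.card_pos
  rw [gbucket, bucket]
  linarith

end Pool.Agent.Results.MP_196ef9_co.GreedyGapUnbounded
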